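import Mathlib
import Pool.Agent.W_MP_4ae68b_lc.Exist

set_option autoImplicit false

namespace Pool.Agent.Results.MP_4ae68b_lc.CoarseningFails

open Pool.Agent.HM FirstOrder FirstOrder.Language

/-- There is a field `K` of equicharacteristic zero with additional first-order structure and a
nontrivial proper definable coarsening `Vc` of its (nontrivial) valuation ring `VO` such that `K`
with the coarse valuation is `ω`-h-minimal, the residue field of the coarse valuation with its
induced structure is `ω`-h-minimal (for every choice `B` of the parameters allowed in the induced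
structure), but `K` with the valuation `VO` is not `ω`-h-minimal. -/
theorem result :
    ∃ (R : ℕ → Type) (O Oc : R 1) (K : Type) (_ : Field K) (_ : Interp R K)
      (VO Vc : ValuationSubring K),
      pred O K = VO ∧ pred Oc K = Vc ∧ VO < Vc ∧ Vc < ⊤ ∧
      CharZero (IsLocalRing.ResidueField VO) ∧
      OmegaHMinimal Oc K ∧
      (∀ B : Set K, ∃ Ob : IndRel R Vc B 1,
        Ob.1 = {v | ∃ x ∈ VO, ∃ h : x ∈ Vc, IsLocalRing.residue Vc ⟨x, h⟩ = v 0} ∧
        OmegaHMinimal Ob (ResF Vc)) ∧
      ¬ OmegaHMinimal O K := by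
  obtain ⟨K, _, _, _, _, V, _, _, Vk, ac, t, u, H, hres, hresk, ht1, ht, hu, hu0⟩ := exists_example
  let _ : Interp Rel3 K := interp3 (compV V Vk) V ac
  have T : Set3 V (compV V Vk) Vk ac :=
    { H := H
      hO := rfl
      hOc := rfl
      hS := rfl
      hVO := hVO_compV V Vk H
      hres := hres
      hresk := hresk }
  have hle : compV V Vk ≤ V := fun x hx => hx.1
  have hresO : ∀ n : ℕ, (n : K)⁻¹ ∈ compV V Vk := by
    intro n
    rw [mem_compV]
    refine ⟨hres n, ?_⟩
    by_cases hn : n = 0
    · subst hn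
      rw [Nat.cast_zero, inv_zero, resT_of_mem V V.zero_mem]
      have : IsLocalRing.residue V ⟨0, V.zero_mem⟩ = 0 := map_zero _
      rw [this]
      exact Vk.zero_mem
    · have hn0 : (n : K) ≠ 0 := Nat.cast_ne_zero.mpr hn
      have hnV : (n : K) ∈ V := natCast_mem V n
      have h1 : resT V (n : K)⁻¹ = (n : ResF V)⁻¹ := by
        apply eq_inv_of_mul_eq_one_right
        have h2 : (n : ResF V) = IsLocalRing.residue V ⟨(n : K), hnV⟩ := by
          have : (⟨(n : K), hnV⟩ : V) = (n : V) := rfl
          rw [this, map_natCast]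
        rw [h2, resT_of_mem V (hres n), ← map_mul, ← map_one (IsLocalRing.residue V)]
        congr 1
        exact Subtype.ext (mul_inv_cancel₀ hn0)
      rw [h1]
      exact hresk n
  refine ⟨Rel3, Rel3.O, Rel3.Oc, K, inferInstance, inferInstance, compV V Vk, V, rfl, rfl, ?_, ?_,
    ?_, coarse_hmin T, ?_, fine_not_hmin T t u ht ht1 hu hu0⟩
  · refine lt_of_le_of_ne hle fun h => ?_
    rw [h] at ht
    exact ht.ne ht1
  · refine lt_top_iff_ne_top.mpr fun h => ?_
    have h1 : u⁻¹ ∈ V := by rw [h]; exact ValuationSubring.mem_top _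
    rw [← V.valuation_le_one_iff, map_inv₀] at h1
    have h2 : 0 < V.valuation u := zero_lt_iff.mpr ((map_ne_zero _).mpr hu0)
    rw [inv_le_one₀ h2] at h1
    exact absurd hu (not_lt.mpr h1)
  · apply charZero_of_inj_zero
    intro n hn
    by_contra hn0
    have h1 := hchar_of (V := compV V Vk) hresO n hn0
    have h2 : IsLocalRing.residue (compV V Vk) (n : compV V Vk) = 0 := by
      rw [map_natCast]; exact hn
    rw [IsLocalRing.residue_eq_zero_iff, (compV V Vk).valuation_lt_one_iff] at h2
    exact h2.ne h1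
  · intro B
    have e : {v : Fin 1 → ResF V | ∃ x ∈ compV V Vk, ∃ h : x ∈ V,
        IsLocalRing.residue V ⟨x, h⟩ = v 0} = {v | v 0 ∈ Vk} := by
      ext v
      constructor
      · rintro ⟨x, hx, h, hxv⟩
        have h1 := hx.2
        rw [resT_of_mem V h, hxv] at h1
        exact h1
      · intro hv
        obtain ⟨x, hx⟩ := IsLocalRing.residue_surjective (R := V) (v 0)
        refine ⟨x.1, ⟨x.2, ?_⟩, x.2, hx⟩
        rw [resT_of_mem V x.2]
        show IsLocalRing.residue V x ∈ Vk
        rw [hx]
        exact hv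
    have hdef : B.Definable (Lg Rel3) (pull V {v : Fin 1 → ResF V | ∃ x ∈ compV V Vk,
        ∃ h : x ∈ V, IsLocalRing.residue V ⟨x, h⟩ = v 0}) := by
      rw [e, Set.definable_iff_exists_formula_sum]
      refine ⟨fpred Rel3.O (Term.var (Sum.inr 0)), ?_⟩
      ext x
      simp only [Set.mem_ofPred_eq, realize_fpred, Term.realize_var, Sum.elim_inr]
      constructor
      · rintro ⟨h, h2⟩
        refine ⟨h 0, ?_⟩
        rw [resT_of_mem V (h 0)]
        exact h2
      · intro h
        have hall : ∀ i, x i ∈ V := fun i => by rw [Subsingleton.elim i 0]; exact h.1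
        refine ⟨hall, ?_⟩
        have h2 := h.2
        rw [resT_of_mem V h.1] at h2
        exact h2
    exact ⟨⟨_, hdef⟩, rfl, main2 V (compV V Vk) Vk ac T B _ e⟩

end Pool.Agent.Results.MP_4ae68b_lc.CoarseningFails
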